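import Pool.Agent.H95.DR.Targets
import Pool.Agent.H95.CN.OB1

/-! Row AOB of board dfx_modules: every ideal of a real quadratic field has an oriented basis. -/

set_option autoImplicit false

open MeasureTheory Set Filter NumberField Module
open scoped Real nonZeroDivisors Matrix MatrixGroups
open Pool.Agent.H31.CN Pool.Agent.H89.FM Pool.Agent.H61.FM Pool.Agent.H89.FC Pool.Agent.H95.FC
  Pool.Agent.H89.DF Pool.Agent.H95.DR

namespace Pool.Agent.H96.DF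

section

variable {K : Type} [Field K] [NumberField K]

/-- the complex embedding of a real embedding -/
noncomputable def ce (σ : K →+* ℝ) : K →ₐ[ℚ] ℂ := (Complex.ofRealHom.comp σ).toRatAlgHom

theorem ce_apply (σ : K →+* ℝ) (x : K) : ce σ x = ((σ x : ℝ) : ℂ) := rfl

theorem ce_ne {σ σ' : K →+* ℝ} (h : σ ≠ σ') : ce σ ≠ ce σ' := by
  intro h1
  apply h
  ext x
  have h2 := DFunLike.congr_fun h1 x
  rw [ce_apply, ce_apply] at h2
  exact_mod_cast h2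

open scoped Classical in
theorem univ_emb (hr : Module.finrank ℚ K = 2) {σ σ' : K →+* ℝ} (h : σ ≠ σ') :
    (Finset.univ : Finset (K →ₐ[ℚ] ℂ)) = {ce σ, ce σ'} := by
  classical
  symm
  apply Finset.eq_of_subset_of_card_le (Finset.subset_univ _)
  rw [Finset.card_univ, AlgHom.card ℚ K ℂ, hr, Finset.card_pair (ce_ne h)]

theorem tr_eq (hr : Module.finrank ℚ K = 2) {σ σ' : K →+* ℝ} (h : σ ≠ σ') (x : 𝓞 K) :
    ((Algebra.trace ℤ (𝓞 K) x : ℤ) : ℝ) = σ (x : K) + σ' (x : K) := by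
  classical
  have h1 := trace_eq_sum_embeddings (K := ℚ) (L := K) ℂ (x := (x : K))
  rw [univ_emb hr h, Finset.sum_pair (ce_ne h), ← Algebra.coe_trace_int, ce_apply, ce_apply] at h1
  have h2 : ((Algebra.trace ℤ (𝓞 K) x : ℤ) : ℂ) = ((σ (x : K) + σ' (x : K) : ℝ) : ℂ) := by
    push_cast
    simpa using h1
  exact_mod_cast h2

theorem nm_eq (hEMB : T_EMB) {D : ℕ} {σ σ' : K →+* ℝ} (h : RQ K D σ σ') (x : 𝓞 K) :
    ((Algebra.norm ℤ x : ℤ) : ℝ) = σ (x : K) * σ' (x : K) := by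
  have h1 := (hEMB K D σ σ' h).1 (x : K)
  rw [← h1, ← Algebra.coe_norm_int]
  simp

theorem discr_pair (hr : Module.finrank ℚ K = 2) {σ σ' : K →+* ℝ} (h : σ ≠ σ')
    (v : Fin 2 → 𝓞 K) :
    ((Algebra.discr ℤ v : ℤ) : ℝ) =
      (σ (v 0 : K) * σ' (v 1 : K) - σ (v 1 : K) * σ' (v 0 : K)) ^ 2 := by
  have h1 : ((Algebra.discr ℤ v : ℤ) : ℝ) =
      ((Algebra.trace ℤ (𝓞 K) (v 0 * v 0) : ℤ) : ℝ) * ((Algebra.trace ℤ (𝓞 K) (v 1 * v 1) : ℤ) : ℝ)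
        - ((Algebra.trace ℤ (𝓞 K) (v 0 * v 1) : ℤ) : ℝ) *
          ((Algebra.trace ℤ (𝓞 K) (v 1 * v 0) : ℤ) : ℝ) := by
    rw [Algebra.discr_def, Matrix.det_fin_two]
    simp only [Algebra.traceMatrix_apply, Algebra.traceForm_apply]
    push_cast
    ring
  rw [tr_eq hr h, tr_eq hr h, tr_eq hr h, tr_eq hr h] at h1
  simp only [map_mul] at h1
  rw [h1]
  ring

/-- the statement with a basis whose orientation is known -/
theorem ob_of_basis (hEMB : T_EMB) (D : ℕ) (σ σ' : K →+* ℝ) (hq : RQ K D σ σ')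
    (I : Ideal (𝓞 K)) (hI : I ≠ ⊥) (α β : 𝓞 K) (hα : α ∈ I) (hβ : β ∈ I)
    (mem : ∀ γ : 𝓞 K, γ ∈ I ↔ ∃ v : ℤ × ℤ, γ = lv K α β v)
    (inj : ∀ v : ℤ × ℤ, lv K α β v = 0 → v = 0)
    (hdis : (σ (α : K) * σ' (β : K) - σ (β : K) * σ' (α : K)) ^ 2 =
      (Ideal.absNorm I : ℝ) ^ 2 * D)
    (ori : 0 < σ (α : K) * σ' (β : K) - σ (β : K) * σ' (α : K)) :
    ∃ Q : QF, dsc Q = -(D : ℤ) ∧ OBr σ σ' I α β Q := by
  have hN0 : Ideal.absNorm I ≠ 0 := by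
    rw [Ne, Ideal.absNorm_eq_zero_iff]
    exact hI
  have hNpos : (0 : ℝ) < Ideal.absNorm I := by exact_mod_cast Nat.pos_of_ne_zero hN0
  obtain ⟨A, hA⟩ := Ideal.absNorm_dvd_norm_of_mem hα
  obtain ⟨C, hC⟩ := Ideal.absNorm_dvd_norm_of_mem hβ
  obtain ⟨E, hE⟩ := Ideal.absNorm_dvd_norm_of_mem (I.add_mem hα hβ)
  have eA : (Ideal.absNorm I : ℝ) * A = σ (α : K) * σ' (α : K) := by
    rw [← nm_eq hEMB hq, hA]
    push_cast
    rfl
  have eC : (Ideal.absNorm I : ℝ) * C = σ (β : K) * σ' (β : K) := by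
    rw [← nm_eq hEMB hq, hC]
    push_cast
    rfl
  have eE : (Ideal.absNorm I : ℝ) * E = (σ (α : K) + σ (β : K)) * (σ' (α : K) + σ' (β : K)) := by
    have h := nm_eq hEMB hq (α + β)
    rw [hE] at h
    push_cast at h
    rw [map_add, map_add] at h
    exact h
  obtain ⟨a, ha⟩ : ∃ a : ℝ, a = σ (α : K) := ⟨_, rfl⟩
  obtain ⟨b, hb⟩ : ∃ b : ℝ, b = σ (β : K) := ⟨_, rfl⟩
  obtain ⟨a', ha'⟩ : ∃ a : ℝ, a = σ' (α : K) := ⟨_, rfl⟩
  obtain ⟨b', hb'⟩ : ∃ b : ℝ, b = σ' (β : K) := ⟨_, rfl⟩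
  obtain ⟨N, hN⟩ : ∃ N : ℝ, N = (Ideal.absNorm I : ℝ) := ⟨_, rfl⟩
  rw [← ha, ← hb, ← ha', ← hb'] at hdis eE
  rw [← hN] at hdis eE
  rw [← ha, ← ha', ← hN] at eA
  rw [← hb, ← hb', ← hN] at eC
  rw [← hN] at hNpos
  have eB : N * (E - A - C) = a * b' + b * a' := by
    linear_combination eE - eA - eC
  have hdsc : (4 * (A : ℝ) * C - (E - A - C) ^ 2) = -D := by
    have h1 : N ^ 2 * (4 * (A : ℝ) * C - (E - A - C) ^ 2) = N ^ 2 * (-D) := by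
      have h2 : N ^ 2 * (4 * (A : ℝ) * C - (E - A - C) ^ 2) =
          4 * (N * A) * (N * C) - (N * (E - A - C)) ^ 2 := by ring
      rw [h2, eA, eC, eB]
      linear_combination -hdis
    exact mul_left_cancel₀ (pow_ne_zero 2 hNpos.ne') h1
  refine ⟨(A, E - A - C, C), ?_, ⟨mem, inj, ?_, ori⟩⟩
  · show dsc (A, E - A - C, C) = -D
    unfold dsc
    exact_mod_cast hdsc
  · intro v
    have hσ : ∀ τ : K →+* ℝ, τ ((lv K α β v : 𝓞 K) : K) =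
        (v.1 : ℝ) * τ (α : K) + (v.2 : ℝ) * τ (β : K) := by
      intro τ
      unfold lv
      push_cast
      simp
    rw [hσ σ, hσ σ', ← hN, ← ha, ← hb, ← ha', ← hb']
    unfold val
    push_cast
    linear_combination -(v.1 : ℝ) ^ 2 * eA - (v.1 : ℝ) * v.2 * eB - (v.2 : ℝ) ^ 2 * eC

end

theorem pf_OBGr (hEMB : T_EMB) : T_OBGr := by
  intro K _ _ D σ σ' hq I hI
  have hD := hq.pos
  have hr := hq.rk
  have hd := hq.dis
  have hr2 : Module.finrank ℤ (𝓞 K) = 2 := by rw [RingOfIntegers.rank, hr]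
  obtain ⟨b0⟩ : Nonempty (Basis (Fin 2) ℤ (𝓞 K)) := ⟨Module.finBasisOfFinrankEq ℤ (𝓞 K) hr2⟩
  obtain ⟨bI⟩ : Nonempty (Basis (Fin 2) ℤ I) := ⟨Ideal.selfBasis b0 I hI⟩
  have h1 := Pool.Agent.H95.CN.discr_ideal hr I bI
  have h2 := discr_pair hr hq.ne (fun i => (bI i : 𝓞 K))
  rw [h1, hd] at h2
  have hdis : (σ ((bI 0 : 𝓞 K) : K) * σ' ((bI 1 : 𝓞 K) : K) -
      σ ((bI 1 : 𝓞 K) : K) * σ' ((bI 0 : 𝓞 K) : K)) ^ 2 = (Ideal.absNorm I : ℝ) ^ 2 * D := by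
    push_cast at h2
    linarith
  have hN0 : Ideal.absNorm I ≠ 0 := by
    rw [Ne, Ideal.absNorm_eq_zero_iff]
    exact hI
  have hNpos : (0 : ℝ) < Ideal.absNorm I := by exact_mod_cast Nat.pos_of_ne_zero hN0
  have hne : σ ((bI 0 : 𝓞 K) : K) * σ' ((bI 1 : 𝓞 K) : K) -
      σ ((bI 1 : 𝓞 K) : K) * σ' ((bI 0 : 𝓞 K) : K) ≠ 0 := by
    intro h0
    rw [h0] at hdis
    have : (0 : ℝ) < (Ideal.absNorm I : ℝ) ^ 2 * D := by
      have : (0 : ℝ) < D := by exact_mod_cast hD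
      positivity
    linarith
  have memI : ∀ γ : 𝓞 K, γ ∈ I ↔ ∃ v : ℤ × ℤ, γ = lv K (bI 0 : 𝓞 K) (bI 1 : 𝓞 K) v := by
    intro γ
    constructor
    · intro hγ
      have h3 := bI.sum_repr ⟨γ, hγ⟩
      rw [Fin.sum_univ_two] at h3
      refine ⟨(bI.repr ⟨γ, hγ⟩ 0, bI.repr ⟨γ, hγ⟩ 1), ?_⟩
      have h4 := congrArg (Subtype.val) h3
      simp only [Submodule.coe_add, Submodule.coe_smul_of_tower, zsmul_eq_mul] at h4
      exact h4.symm
    · rintro ⟨v, rfl⟩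
      exact I.add_mem (I.mul_mem_left _ (bI 0).2) (I.mul_mem_left _ (bI 1).2)
  have injI : ∀ v : ℤ × ℤ, lv K (bI 0 : 𝓞 K) (bI 1 : 𝓞 K) v = 0 → v = 0 := by
    intro v hv
    have h3 := bI.linearIndependent
    rw [Fintype.linearIndependent_iff] at h3
    have h4 := h3 ![v.1, v.2] (by
      rw [Fin.sum_univ_two]
      apply Subtype.ext
      simp only [Matrix.cons_val_zero, Matrix.cons_val_one, Submodule.coe_add,
        Submodule.coe_smul_of_tower, zsmul_eq_mul, ZeroMemClass.coe_zero]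
      exact hv)
    exact Prod.ext (h4 0) (h4 1)
  have hlv : ∀ (α β : 𝓞 K) (v : ℤ × ℤ), lv K β α v = lv K α β (v.2, v.1) := by
    intro α β v
    unfold lv
    exact add_comm _ _
  rcases lt_or_gt_of_ne hne with hlt | hgt
  · refine ⟨(bI 1 : 𝓞 K), (bI 0 : 𝓞 K), ?_⟩
    refine ob_of_basis hEMB D σ σ' hq I hI _ _ (bI 1).2 (bI 0).2 ?_ ?_ ?_ ?_
    · intro γ
      rw [memI γ]
      constructor
      · rintro ⟨v, hv⟩
        refine ⟨(v.2, v.1), ?_⟩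
        rw [hv, hlv]
      · rintro ⟨v, hv⟩
        refine ⟨(v.2, v.1), ?_⟩
        rw [hv, hlv]
    · intro v hv
      rw [hlv] at hv
      have := injI (v.2, v.1) hv
      exact Prod.ext (congrArg Prod.snd this) (congrArg Prod.fst this)
    · rw [← hdis]
      ring
    · linarith
  · refine ⟨(bI 0 : 𝓞 K), (bI 1 : 𝓞 K), ?_⟩
    exact ob_of_basis hEMB D σ σ' hq I hI _ _ (bI 0).2 (bI 1).2 memI injI hdis hgt

end Pool.Agent.H96.DF
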